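import Pool.Agent.Y602.MVE.Final

/-!
# Shortest Path Most Vital Edges is W[1]-hard for the number of deleted edges

SP-MVE (also known as length-bounded edge cut): can one delete at most `k` edges of an undirected
graph with positive integer edge lengths such that afterwards all paths from `s` to `t` have
length at least `l`? The parameter is `k`. We show that the problem is W[1]-hard, even if all
edges have length one.
-/

namespace Pool.Agent.Results.MP_40aef2_lc.DeletionBudgetHard

open Pool.Agent.NPC Pool.Agent.H633R2 Pool.Agent.Y602.MVE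

/-- SP-MVE is W[1]-hard for the parameter `k` (number of deleted edges), already for unit
lengths. -/
theorem result :
    -- unit lengths
    W1Hard (fun x : List (List Bool) × ℕ × ℕ × ℕ × ℕ => x.2.2.2.1) UnitMVE ∧
    -- positive integer lengths
    W1Hard (fun x : List (List ℕ) × ℕ × ℕ × ℕ × ℕ => x.2.2.2.1) MVE ∧
    -- so there is no fpt-algorithm unless FPT = W[1]
    (IsFpt (fun x : List (List Bool) × ℕ × ℕ × ℕ × ℕ => x.2.2.2.1) UnitMVE ∨
      IsFpt (fun x : List (List ℕ) × ℕ × ℕ × ℕ × ℕ => x.2.2.2.1) MVE →
        ∀ (α : Type) [TEnc α] (κ : α → ℕ) (P : α → Prop), InW1 κ P → IsFpt κ P) := by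
  refine ⟨w1Hard_unit, w1Hard_mve, ?_⟩
  rintro (h | h) α _ κ P hP
  · exact w1Hard_unit.collapse h hP
  · exact w1Hard_mve.collapse h hP

end Pool.Agent.Results.MP_40aef2_lc.DeletionBudgetHard
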